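import Pool.Agent.H32.RBCut

open Pool.Agent.H38.NP Pool.Agent.H32.RBCut

theorem Pool.Agent.Results.MP_ad21dd_lc.Hard.result : NPHardOn ValidU YesU :=
  hardU.npHardOn
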